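import Pool.Agent.helper90.KS.Spec

/-! # Module ks:CB -/

set_option autoImplicit false

open scoped BigOperators

namespace Pool.Agent.KS

open Pool.Agent.helper23.TH

noncomputable section

open Classical

theorem CB_bi {V W : Type} {inst : DecidableEq W} (M : Finset V) (F : V → Finset W) (a b : ℕ) (hM : M.card ≤ a)
    (hF : ∀ m ∈ M, (F m).card ≤ b) : (M.biUnion F).card ≤ a * b :=
  (Finset.card_biUnion_le_card_mul M F b hF).trans (Nat.mul_le_mul_right _ hM)

/-- tuples with values in `S` and a condition whose fibres over one coordinate are small -/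
theorem CB_fib {V : Type} [Fintype V] (S : Finset V) (n k : ℕ) (i' : Fin (n + 1))
    (P : (Fin (n + 1) → V) → Prop)
    (h : ∀ w : Fin n → V, (∀ j, w j ∈ S) →
      ∃ T : Finset V, T.card ≤ k ∧ ∀ x ∈ S, P (i'.insertNth x w) → x ∈ T) :
    (Finset.univ.filter fun u : Fin (n + 1) → V => (∀ j, u j ∈ S) ∧ P u).card ≤
      k * S.card ^ n := by
  have hc : (Fintype.piFinset fun _ : Fin n => S).card = S.card ^ n := by
    rw [Fintype.card_piFinset]
    simp
  rw [← hc]
  refine Finset.card_le_mul_card_image_of_maps_to (f := fun u => i'.removeNth u) ?_ k ?_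
  · intro u hu
    rw [Fintype.mem_piFinset]
    intro j
    exact (Finset.mem_filter.mp hu).2.1 _
  · intro w hw
    rw [Fintype.mem_piFinset] at hw
    obtain ⟨T, hT, hT'⟩ := h w hw
    refine le_trans ?_ hT
    refine Finset.card_le_card_of_injOn (fun u => u i') ?_ ?_
    · intro u hu
      have hu' := Finset.mem_filter.mp (Finset.mem_coe.mp hu)
      have h1 := (Finset.mem_filter.mp hu'.1).2
      have h2 : i'.insertNth (u i') w = u := by
        rw [← hu'.2]
        exact Fin.insertNth_self_removeNth i' u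
      exact hT' (u i') (h1.1 i') (by rw [h2]; exact h1.2)
    · intro u hu u₂ hu₂ he
      have hu' := (Finset.mem_filter.mp (Finset.mem_coe.mp hu)).2
      have hu₂' := (Finset.mem_filter.mp (Finset.mem_coe.mp hu₂)).2
      have h2 : i'.insertNth (u i') w = u := by
        rw [← hu']
        exact Fin.insertNth_self_removeNth i' u
      have h3 : i'.insertNth (u₂ i') w = u₂ := by
        rw [← hu₂']
        exact Fin.insertNth_self_removeNth i' u₂
      have he' : u i' = u₂ i' := he
      rw [← h2, ← h3, he']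

theorem CB_pair {V : Type} [Fintype V] (S : Finset V) (n k : ℕ) (i i' : Fin (n + 1))
    (hii : i ≠ i') (B : V → V → Prop)
    (h : ∀ x ∈ S, (S.filter fun y => B x y).card ≤ k) :
    (Finset.univ.filter fun u : Fin (n + 1) → V => (∀ j, u j ∈ S) ∧ B (u i) (u i')).card ≤
      k * S.card ^ n := by
  obtain ⟨j, hj⟩ := Fin.exists_succAbove_eq hii
  refine CB_fib S n k i' (fun u => B (u i) (u i')) ?_
  intro w hw
  refine ⟨S.filter fun y => B (w j) y, h _ (hw j), ?_⟩
  intro x hx hB
  have hB' : B (i'.insertNth (α := fun _ => V) x w i) (i'.insertNth (α := fun _ => V) x w i') := hB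
  rw [← hj, Fin.insertNth_apply_succAbove, Fin.insertNth_apply_same] at hB'
  exact Finset.mem_filter.mpr ⟨hx, hB'⟩

theorem CB_single {V : Type} [Fintype V] (S : Finset V) (n k : ℕ) (i : Fin (n + 1))
    (B : V → Prop) (h : (S.filter fun y => B y).card ≤ k) :
    (Finset.univ.filter fun u : Fin (n + 1) → V => (∀ j, u j ∈ S) ∧ B (u i)).card ≤
      k * S.card ^ n := by
  refine CB_fib S n k i (fun u => B (u i)) ?_
  intro w hw
  refine ⟨S.filter fun y => B y, h, ?_⟩
  intro x hx hB
  have hB' : B (i.insertNth (α := fun _ => V) x w i) := hB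
  rw [Fin.insertNth_apply_same] at hB'
  exact Finset.mem_filter.mpr ⟨hx, hB'⟩

theorem CB_co {V X : Type} (p q : V → X) (u w : V) (h : Co p q u w) : Co p q w u := by
  rcases h with h | h
  · exact Or.inl h.symm
  · exact Or.inr h.symm

/-- conflicts between two roots -/
theorem CB_Bp (hNL : NL_stmt) {V X : Type} [Fintype V] (A : V → V → Prop) (p q : V → X)
    (Δ C : ℕ) (hG : PG A p q) (hd : ∀ v, deg A v ≤ Δ) (v v' u : V)
    (hu : u ∈ Ls A C v ∩ Ls A C v') :
    ((Ls A C v ∩ Ls A C v').filter fun u' => Bp A p q v v' u u').card ≤ (8 * C + 2) * Δ := by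
  obtain ⟨n1, -, -, n4, -, -, -⟩ := hNL V X A p q Δ C hG hd
  have hu1 : Lg A C v u := (Finset.mem_filter.mp (Finset.mem_inter.mp hu).1).2
  have hu2 : Lg A C v' u := (Finset.mem_filter.mp (Finset.mem_inter.mp hu).2).2
  set M := Finset.univ.filter fun m => A v m ∧ A u m with hM
  set M' := Finset.univ.filter fun m => A v' m ∧ A u m with hM'
  have hMc : M.card ≤ C := le_of_lt hu1.2.2
  have hMc' : M'.card ≤ C := le_of_lt hu2.2.2
  set N1 : V → Finset V := fun w => Finset.univ.filter fun u' => Lg A C v u' ∧ Co p q u' w with hN1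
  set N2 : V → Finset V := fun w => Finset.univ.filter fun u' => A w u' with hN2
  set T : V → Finset V := fun m => Finset.univ.filter fun m' => A v' m' ∧ Co p q m' m with hT
  have hsub : ((Ls A C v ∩ Ls A C v').filter fun u' => Bp A p q v v' u u') ⊆
      N1 u ∪ (M.biUnion N1 ∪ (M'.biUnion N1 ∪ (M.biUnion N2 ∪ (M'.biUnion N2 ∪
        M.biUnion fun m => (T m).biUnion N2)))) := by
    intro u' hu'
    rw [Finset.mem_filter, Finset.mem_inter] at hu'
    obtain ⟨⟨h1, h2⟩, hB⟩ := hu'
    have h1' : Lg A C v u' := (Finset.mem_filter.mp h1).2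
    have h2' : Lg A C v' u' := (Finset.mem_filter.mp h2).2
    rcases hB with hB | ⟨m, hm1, hm2, hm3⟩ | ⟨m, hm1, hm2, hm3⟩ | ⟨m, hm1, hm2, hm3⟩ |
      ⟨m, hm1, hm2, hm3⟩ | ⟨m, m', hm1, hm2, hm3, hm4, hm5⟩
    · refine Finset.mem_union_left _ (Finset.mem_filter.mpr ⟨Finset.mem_univ _, h1', ?_⟩)
      exact CB_co p q _ _ hB
    · refine Finset.mem_union_right _ (Finset.mem_union_left _ (Finset.mem_biUnion.mpr ⟨m, ?_, ?_⟩))
      · exact Finset.mem_filter.mpr ⟨Finset.mem_univ _, hm1, hm2⟩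
      · exact Finset.mem_filter.mpr ⟨Finset.mem_univ _, h1', CB_co p q _ _ hm3⟩
    · refine Finset.mem_union_right _ (Finset.mem_union_right _ (Finset.mem_union_left _
        (Finset.mem_biUnion.mpr ⟨m, ?_, ?_⟩)))
      · exact Finset.mem_filter.mpr ⟨Finset.mem_univ _, hm1, hm2⟩
      · exact Finset.mem_filter.mpr ⟨Finset.mem_univ _, h1', CB_co p q _ _ hm3⟩
    · refine Finset.mem_union_right _ (Finset.mem_union_right _ (Finset.mem_union_right _
        (Finset.mem_union_left _ (Finset.mem_biUnion.mpr ⟨m, ?_, ?_⟩))))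
      · exact Finset.mem_filter.mpr ⟨Finset.mem_univ _, hm1, hm2⟩
      · exact Finset.mem_filter.mpr ⟨Finset.mem_univ _, hG.symm _ _ hm3⟩
    · refine Finset.mem_union_right _ (Finset.mem_union_right _ (Finset.mem_union_right _
        (Finset.mem_union_right _ (Finset.mem_union_left _ (Finset.mem_biUnion.mpr ⟨m, ?_, ?_⟩)))))
      · exact Finset.mem_filter.mpr ⟨Finset.mem_univ _, hm1, hm2⟩
      · exact Finset.mem_filter.mpr ⟨Finset.mem_univ _, hG.symm _ _ hm3⟩
    · refine Finset.mem_union_right _ (Finset.mem_union_right _ (Finset.mem_union_right _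
        (Finset.mem_union_right _ (Finset.mem_union_right _ (Finset.mem_biUnion.mpr ⟨m, ?_, ?_⟩)))))
      · exact Finset.mem_filter.mpr ⟨Finset.mem_univ _, hm1, hm2⟩
      · refine Finset.mem_biUnion.mpr ⟨m', ?_, ?_⟩
        · exact Finset.mem_filter.mpr ⟨Finset.mem_univ _, hm3, CB_co p q _ _ hm5⟩
        · exact Finset.mem_filter.mpr ⟨Finset.mem_univ _, hG.symm _ _ hm4⟩
  have c1 : (N1 u).card ≤ 2 * Δ := n4 v u
  have c2 : (M.biUnion N1).card ≤ C * (2 * Δ) := CB_bi _ _ _ _ hMc fun m _ => n4 v m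
  have c3 : (M'.biUnion N1).card ≤ C * (2 * Δ) := CB_bi _ _ _ _ hMc' fun m _ => n4 v m
  have c4 : (M.biUnion N2).card ≤ C * Δ := CB_bi _ _ _ _ hMc fun m _ => hd m
  have c5 : (M'.biUnion N2).card ≤ C * Δ := CB_bi _ _ _ _ hMc' fun m _ => hd m
  have c6 : (M.biUnion fun m => (T m).biUnion N2).card ≤ C * (2 * Δ) :=
    CB_bi _ _ _ _ hMc fun m _ => CB_bi _ _ _ _ (n1 v' m) fun m' _ => hd m'
  refine (Finset.card_le_card hsub).trans ?_
  refine (Finset.card_union_le _ _).trans ?_
  have e1 := Finset.card_union_le (M.biUnion N1) (M'.biUnion N1 ∪ (M.biUnion N2 ∪ (M'.biUnion N2 ∪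
        M.biUnion fun m => (T m).biUnion N2)))
  have e2 := Finset.card_union_le (M'.biUnion N1) (M.biUnion N2 ∪ (M'.biUnion N2 ∪
        M.biUnion fun m => (T m).biUnion N2))
  have e3 := Finset.card_union_le (M.biUnion N2) (M'.biUnion N2 ∪
        M.biUnion fun m => (T m).biUnion N2)
  have e4 := Finset.card_union_le (M'.biUnion N2) (M.biUnion fun m => (T m).biUnion N2)
  have e5 : (8 * C + 2) * Δ = 2 * Δ + (C * (2 * Δ) + (C * (2 * Δ) + (C * Δ + (C * Δ +
      C * (2 * Δ))))) := by ring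
  rw [e5]
  omega

/-- conflicts between a root and the centres -/
theorem CB_Bs (hNL : NL_stmt) {V X : Type} [Fintype V] (A : V → V → Prop) (p q : V → X)
    (Δ C : ℕ) (hG : PG A p q) (hd : ∀ v, deg A v ≤ Δ) (v v' : V) :
    ((Ls A C v ∩ Ls A C v').filter fun u => Bs A p q C v v' u).card ≤ (C + 4) * Δ := by
  obtain ⟨n1, -, -, n4, -, -, -⟩ := hNL V X A p q Δ C hG hd
  set N2 : V → Finset V := fun w => Finset.univ.filter fun u' => A w u' with hN2
  set M := if cd A v v' < C then Finset.univ.filter fun m => A v m ∧ A v' m else ∅ with hM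
  set T := Finset.univ.filter fun m => A v m ∧ Co p q m v' with hT
  set T' := Finset.univ.filter fun m => A v' m ∧ Co p q m v with hT'
  have hMc : M.card ≤ C := by
    rw [hM]
    split_ifs with h
    · exact le_of_lt h
    · simp
  have hsub : ((Ls A C v ∩ Ls A C v').filter fun u => Bs A p q C v v' u) ⊆
      M.biUnion N2 ∪ (T.biUnion N2 ∪ T'.biUnion N2) := by
    intro u hu
    obtain ⟨-, hB⟩ := Finset.mem_filter.mp hu
    rcases hB with ⟨hc, m, hm1, hm2, hm3⟩ | ⟨m, hm1, hm2, hm3⟩ | ⟨m, hm1, hm2, hm3⟩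
    · refine Finset.mem_union_left _ (Finset.mem_biUnion.mpr ⟨m, ?_, ?_⟩)
      · rw [hM, if_pos hc]
        exact Finset.mem_filter.mpr ⟨Finset.mem_univ _, hm1, hm2⟩
      · exact Finset.mem_filter.mpr ⟨Finset.mem_univ _, hG.symm _ _ hm3⟩
    · refine Finset.mem_union_right _ (Finset.mem_union_left _ (Finset.mem_biUnion.mpr ⟨m, ?_, ?_⟩))
      · exact Finset.mem_filter.mpr ⟨Finset.mem_univ _, hm1, hm3⟩
      · exact Finset.mem_filter.mpr ⟨Finset.mem_univ _, hG.symm _ _ hm2⟩
    · refine Finset.mem_union_right _ (Finset.mem_union_right _ (Finset.mem_biUnion.mpr ⟨m, ?_, ?_⟩))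
      · exact Finset.mem_filter.mpr ⟨Finset.mem_univ _, hm1, hm3⟩
      · exact Finset.mem_filter.mpr ⟨Finset.mem_univ _, hG.symm _ _ hm2⟩
  have c1 : (M.biUnion N2).card ≤ C * Δ := CB_bi _ _ _ _ hMc fun m _ => hd m
  have c2 : (T.biUnion N2).card ≤ 2 * Δ := CB_bi _ _ _ _ (n1 v v') fun m _ => hd m
  have c3 : (T'.biUnion N2).card ≤ 2 * Δ := CB_bi _ _ _ _ (n1 v' v) fun m _ => hd m
  refine (Finset.card_le_card hsub).trans ?_
  refine (Finset.card_union_le _ _).trans ?_
  have e1 := Finset.card_union_le (T.biUnion N2) (T'.biUnion N2)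
  have e5 : (C + 4) * Δ = C * Δ + (2 * Δ + 2 * Δ) := by ring
  rw [e5]
  omega

theorem CB (hNL : NL_stmt) : CB_stmt := by
  intro s C
  refine ⟨s ^ 2 * (8 * C + 2) + s * (C + 4), ?_⟩
  intro V X _ A p q Δ hG hd v v'
  set S := Ls A C v ∩ Ls A C v' with hS
  rcases s with _ | n
  · have : (Finset.univ.filter fun u : Fin 0 → V => (∀ i, u i ∈ S) ∧
        ¬ Gd A p q C v v' u) = ∅ := by
      rw [Finset.filter_eq_empty_iff]
      intro u _ h
      exact h.2 ⟨fun i => i.elim0, fun i => i.elim0⟩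
    rw [this]
    simp
  · simp only [Nat.add_sub_cancel]
    set F1 : Fin (n + 1) × Fin (n + 1) → Finset (Fin (n + 1) → V) := fun ii =>
      if ii.1 = ii.2 then ∅ else
        Finset.univ.filter fun u : Fin (n + 1) → V => (∀ j, u j ∈ S) ∧
          Bp A p q v v' (u ii.1) (u ii.2) with hF1
    set F2 : Fin (n + 1) → Finset (Fin (n + 1) → V) := fun i =>
      Finset.univ.filter fun u : Fin (n + 1) → V => (∀ j, u j ∈ S) ∧ Bs A p q C v v' (u i) with hF2
    have hsub : (Finset.univ.filter fun u : Fin (n + 1) → V => (∀ i, u i ∈ S) ∧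
        ¬ Gd A p q C v v' u) ⊆ Finset.univ.biUnion F1 ∪ Finset.univ.biUnion F2 := by
      intro u hu
      obtain ⟨-, h1, h2⟩ := Finset.mem_filter.mp hu
      by_contra hn
      apply h2
      constructor
      · intro i i' hii hB
        apply hn
        refine Finset.mem_union_left _ (Finset.mem_biUnion.mpr ⟨(i, i'), Finset.mem_univ _, ?_⟩)
        rw [hF1]
        simp only [if_neg hii]
        exact Finset.mem_filter.mpr ⟨Finset.mem_univ _, h1, hB⟩
      · intro i hB
        apply hn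
        refine Finset.mem_union_right _ (Finset.mem_biUnion.mpr ⟨i, Finset.mem_univ _, ?_⟩)
        exact Finset.mem_filter.mpr ⟨Finset.mem_univ _, h1, hB⟩
    have c1 : (Finset.univ.biUnion F1).card ≤ (n + 1) ^ 2 * ((8 * C + 2) * Δ * S.card ^ n) := by
      refine CB_bi _ _ _ _ ?_ ?_
      · rw [Finset.card_univ, Fintype.card_prod, Fintype.card_fin]
        exact le_of_eq (by ring)
      · intro ii _
        rw [hF1]
        by_cases hii : ii.1 = ii.2
        · simp only [if_pos hii]
          simp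
        · simp only [if_neg hii]
          exact CB_pair S n _ ii.1 ii.2 hii _ fun x hx => CB_Bp hNL A p q Δ C hG hd v v' x hx
    have c2 : (Finset.univ.biUnion F2).card ≤ (n + 1) * ((C + 4) * Δ * S.card ^ n) := by
      refine CB_bi _ _ _ _ ?_ ?_
      · rw [Finset.card_univ, Fintype.card_fin]
      · intro i _
        exact CB_single S n _ i _ (CB_Bs hNL A p q Δ C hG hd v v')
    refine (Finset.card_le_card hsub).trans ((Finset.card_union_le _ _).trans ?_)
    have e : ((n + 1) ^ 2 * (8 * C + 2) + (n + 1) * (C + 4)) * Δ * S.card ^ n =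
      (n + 1) ^ 2 * ((8 * C + 2) * Δ * S.card ^ n) + (n + 1) * ((C + 4) * Δ * S.card ^ n) := by ring
    rw [e]
    omega

end

end Pool.Agent.KS
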